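import Pool.Agent.Helper77.SM.Basic

/-!
# SM-SR: quasi-unipotent matrices over discrete valuation rings of small ramification
-/

set_option autoImplicit false

open Matrix IsLocalRing Polynomial Finset

namespace Pool.Agent.Helper86.SM

open Pool.Agent.Helper77.SM

/-- a root of unity `1 + lam` of `p`-power order with `lam ^ n` divisible by `ϖ` -/
theorem sr_key (p : ℕ) [hp : Fact p.Prime] {O L : Type} [CommRing O] [Field L] [Algebra O L]
    (ϖ : O) (n t : ℕ) (lam y : L) (h0 : lam ≠ 0) (ht : (1 + lam) ^ p ^ t = 1)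
    (hlam : IsIntegral O lam) (hy : IsIntegral O y) (hn : lam ^ n = algebraMap O L ϖ * y) :
    ∃ w : L, IsIntegral O w ∧ (p : L) ^ n = algebraMap O L ϖ ^ (p - 1) * w := by
  obtain ⟨z, hz⟩ : ∃ z : L, z = 1 + lam := ⟨_, rfl⟩
  rw [← hz] at ht
  have hz1 : z ≠ 1 := by
    rw [hz]
    intro h
    exact h0 (by linear_combination h)
  have hzint : IsIntegral O z := by
    rw [hz]
    exact isIntegral_one.add hlam
  obtain ⟨s, hs, hord⟩ := (Nat.dvd_prime_pow hp.out).1 (orderOf_dvd_of_pow_eq_one ht)
  have hs0 : s ≠ 0 := by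
    rintro rfl
    rw [pow_zero, orderOf_eq_one_iff] at hord
    exact hz1 hord
  obtain ⟨s', rfl⟩ := Nat.exists_eq_succ_of_ne_zero hs0
  have hprim : IsPrimitiveRoot z (p ^ (s' + 1)) := by
    rw [← hord]
    exact IsPrimitiveRoot.orderOf z
  have hη : IsPrimitiveRoot (z ^ p ^ s') p :=
    hprim.pow (pow_pos hp.out.pos _) (by rw [pow_succ])
  obtain ⟨q, hq⟩ : ∃ q, p = q + 1 := ⟨p - 1, by have := hp.out.pos; omega⟩
  have h1 := IsPrimitiveRoot.prod_one_sub_pow_eq_order (n := q) (μ := z ^ p ^ s')
    (by rw [← hq]; exact hη)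
  have h2 : ∀ k, 1 - (z ^ p ^ s') ^ (k + 1)
      = (-lam) * ∑ i ∈ range (p ^ s' * (k + 1)), z ^ i := by
    intro k
    rw [← pow_mul, ← mul_neg_geom_sum, hz]
    ring
  rw [Finset.prod_congr rfl fun k _ => h2 k, Finset.prod_mul_distrib, Finset.prod_const,
    card_range] at h1
  have h3 : (p : L) = (-lam) ^ q * ∏ k ∈ range q, ∑ i ∈ range (p ^ s' * (k + 1)), z ^ i := by
    rw [h1, hq]
    push_cast
    ring
  obtain ⟨g, hg⟩ : ∃ g : L, g = ∏ k ∈ range q, ∑ i ∈ range (p ^ s' * (k + 1)), z ^ i := ⟨_, rfl⟩
  have hgint : IsIntegral O g := by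
    rw [hg]
    exact IsIntegral.prod _ fun k _ => IsIntegral.sum _ fun i _ => hzint.pow i
  rw [← hg] at h3
  refine ⟨(-1) ^ (q * n) * (y ^ q * g ^ n), ?_, ?_⟩
  · exact (isIntegral_one.neg.pow _).mul ((hy.pow _).mul (hgint.pow _))
  · rw [h3, hq, Nat.add_sub_cancel, mul_pow, ← pow_mul, neg_pow, mul_comm q n, pow_mul lam n q, hn,
      mul_pow]
    ring

theorem sr_val (p : ℕ) {O : Type} [CommRing O] [IsDomain O]
    [IsDiscreteValuationRing O] {ϖ : O} (hϖ : Irreducible ϖ) {e n : ℕ}
    (he : ¬ ϖ ^ (e + 1) ∣ (p : O)) (hen : e * n + 1 < p) : ¬ ϖ ^ (p - 1) ∣ (p : O) ^ n := by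
  intro h
  have hp0 : (p : O) ≠ 0 := by
    intro h0
    rw [h0] at he
    exact he (dvd_zero _)
  obtain ⟨v, u, hu⟩ := IsDiscreteValuationRing.eq_unit_mul_pow_irreducible hp0 hϖ
  have hv : v ≤ e := by
    by_contra hv
    apply he
    rw [hu]
    exact (pow_dvd_pow _ (by omega)).mul_left _
  rw [hu, mul_pow, ← pow_mul] at h
  have hu' : IsUnit ((u : O) ^ n) := u.isUnit.pow n
  rw [hu'.dvd_mul_left] at h
  have h1 := (pow_dvd_pow_iff hϖ.ne_zero hϖ.not_isUnit).1 h
  have h2 : v * n ≤ e * n := Nat.mul_le_mul_right _ hv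
  omega

/-- A matrix of size `n` over a discrete valuation ring in which `p` is not divisible by
`ϖ ^ (e + 1)`, with `e n < p - 1`, which is unipotent modulo `ϖ` and a power of which with exponent a
power of `p` is unipotent, is unipotent. -/
theorem unipotent_of_small (p : ℕ) [Fact p.Prime] {O : Type} [CommRing O] [IsDomain O]
    [IsDiscreteValuationRing O] {ϖ : O} (hϖ : Irreducible ϖ) {e n : ℕ}
    (he : ¬ ϖ ^ (e + 1) ∣ (p : O)) (hen : e * n + 1 < p) (M : Matrix (Fin n) (Fin n) O)
    (hres : IsNilpotent (res (M - 1))) (t : ℕ) (h : IsNilpotent (M ^ p ^ t - 1)) :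
    IsNilpotent (M - 1) := by
  obtain ⟨N, hN⟩ : ∃ N, N = M - 1 := ⟨_, rfl⟩
  have hM : M = N + 1 := by rw [hN]; abel
  rw [← hN] at hres ⊢
  rw [hM] at h
  -- the characteristic polynomial
  have hchi : C ϖ ∣ N.charpoly - X ^ n := by
    rw [C_dvd_iff_dvd_coeff]
    intro i
    rw [← residue_eq_zero hϖ, ← coeff_map, Polynomial.map_sub, Polynomial.map_pow, map_X,
      ← Matrix.charpoly_map]
    have h1 := (Matrix.isNilpotent_charpoly_sub_pow_of_isNilpotent hres).eq_zero
    rw [Fintype.card_fin] at h1
    have h2 : res N = N.map (residue O) := rfl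
    rw [← h2, h1, coeff_zero]
  obtain ⟨q, hq⟩ := hchi
  obtain ⟨K, hK⟩ : ∃ K, K = FractionRing O := ⟨_, rfl⟩
  obtain ⟨f, hf⟩ : ∃ f : Matrix (Fin n) (Fin n) O →+*
      Matrix (Fin n) (Fin n) (AlgebraicClosure (FractionRing O)),
    f = (algebraMap O (AlgebraicClosure (FractionRing O))).mapMatrix := ⟨_, rfl⟩
  have hOL : Function.Injective (algebraMap O (AlgebraicClosure (FractionRing O))) := by
    rw [IsScalarTower.algebraMap_eq O (FractionRing O) (AlgebraicClosure (FractionRing O))]
    exact (algebraMap (FractionRing O) (AlgebraicClosure (FractionRing O))).injective.comp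
      (IsFractionRing.injective O (FractionRing O))
  have hinj : Function.Injective f := by
    rw [hf]
    exact Matrix.map_injective hOL
  have hcp : (f N).charpoly = N.charpoly.map (algebraMap O (AlgebraicClosure (FractionRing O))) := by
    rw [← Matrix.charpoly_map, hf]
    rfl
  have hroot : ∀ lam ∈ (f N).charpoly.roots, lam = 0 := by
    intro lam hlam
    by_contra h0
    have hr : IsRoot (f N).charpoly lam := (mem_roots'.1 hlam).2
    have hsp := Matrix.mem_spectrum_of_isRoot_charpoly hr
    -- a power of unipotent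
    have ht : (1 + lam) ^ p ^ t = 1 := by
      obtain ⟨m, hm⟩ := h
      have h1 : aeval (f N) (((X + 1) ^ p ^ t - 1) ^ m : (AlgebraicClosure (FractionRing O))[X])
          = 0 := by
        have h2 := congrArg f hm
        rw [map_zero, map_pow, map_sub, map_pow, map_add, map_one] at h2
        rw [map_pow, map_sub, map_pow, map_add, aeval_X, map_one, h2]
      have h3 := spectrum.subset_polynomial_aeval (f N)
        (((X + 1) ^ p ^ t - 1) ^ m : (AlgebraicClosure (FractionRing O))[X])
      have h4 := h3 ⟨lam, hsp, rfl⟩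
      rw [h1] at h4
      have : Nontrivial (Matrix (Fin n) (Fin n) (AlgebraicClosure (FractionRing O))) := by
        by_contra hnt
        rw [not_nontrivial_iff_subsingleton] at hnt
        rw [spectrum.of_subsingleton] at hsp
        exact hsp
      rw [spectrum.zero_eq, Set.mem_singleton_iff] at h4
      simp only [eval_pow, eval_sub, eval_add, eval_X, eval_one] at h4
      have h5 := eq_zero_of_pow_eq_zero h4
      rw [add_comm]
      linear_combination h5
    have hev : aeval lam N.charpoly = 0 := by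
      rw [hcp] at hr
      rw [aeval_def, ← eval_map]
      exact hr
    have hlint : IsIntegral O lam := ⟨N.charpoly, N.charpoly_monic, by rwa [aeval_def] at hev⟩
    have hlam' : lam ^ n
        = algebraMap O (AlgebraicClosure (FractionRing O)) ϖ * (- aeval lam q) := by
      have h1 := congrArg (aeval lam) hq
      rw [map_sub, hev, map_pow, aeval_X, map_mul, aeval_C] at h1
      linear_combination -h1
    have hyint : IsIntegral O (- aeval lam q) := by
      apply IsIntegral.neg
      have : aeval lam q ∈ Algebra.adjoin O {lam} := by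
        exact aeval_mem_adjoin_singleton O lam
      exact IsIntegral.of_mem_of_fg _ hlint.fg_adjoin_singleton _ this
    obtain ⟨w, hw, hw'⟩ := sr_key p ϖ n t lam _ h0 ht hlint hyint hlam'
    -- w lies in the fraction field
    have hϖK : algebraMap O (FractionRing O) ϖ ≠ 0 := by
      intro h1
      exact hϖ.ne_zero ((IsFractionRing.injective O (FractionRing O)) (by rw [h1, map_zero]))
    obtain ⟨x, hx⟩ : ∃ x : FractionRing O,
      x = (p : FractionRing O) ^ n / algebraMap O (FractionRing O) ϖ ^ (p - 1) := ⟨_, rfl⟩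
    have hxw : algebraMap (FractionRing O) (AlgebraicClosure (FractionRing O)) x = w := by
      rw [hx, map_div₀, map_pow, map_pow, map_natCast, hw', ← IsScalarTower.algebraMap_apply]
      have h1 : algebraMap O (AlgebraicClosure (FractionRing O)) ϖ ≠ 0 := by
        intro h1
        exact hϖ.ne_zero (hOL (by rw [h1, map_zero]))
      field_simp
    have hxint : IsIntegral O x := by
      have h1 : IsIntegral O (algebraMap (FractionRing O) (AlgebraicClosure (FractionRing O)) x) := by
        rw [hxw]; exact hw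
      exact (isIntegral_algebraMap_iff
        (algebraMap (FractionRing O) (AlgebraicClosure (FractionRing O))).injective).1 h1
    obtain ⟨w0, hw0⟩ := IsIntegrallyClosed.isIntegral_iff.1 hxint
    apply sr_val p hϖ he hen
    refine ⟨w0, ?_⟩
    apply hOL
    rw [map_pow, map_natCast, hw', map_mul, map_pow, ← hxw, ← hw0, ← IsScalarTower.algebraMap_apply]
  have hsplit := (IsAlgClosed.splits (f N).charpoly)
  have hX : (f N).charpoly = X ^ n := by
    have h1 := hsplit.eq_prod_roots_of_monic (f N).charpoly_monic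
    have h2 : (f N).charpoly.roots = Multiset.replicate (Multiset.card (f N).charpoly.roots) 0 :=
      Multiset.eq_replicate_card.2 hroot
    have h3 : Multiset.card (f N).charpoly.roots = n := by
      rw [← hsplit.natDegree_eq_card_roots, Matrix.charpoly_natDegree_eq_dim, Fintype.card_fin]
    rw [h3] at h2
    rw [h1, h2, Multiset.map_replicate, Multiset.prod_replicate, C_0, sub_zero]
  refine ⟨n, hinj ?_⟩
  have h4 := aeval_self_charpoly (f N)
  rw [hX, map_pow, aeval_X] at h4
  rw [map_pow, map_zero, h4]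

end Pool.Agent.Helper86.SM
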